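import Pool.Agent.D0H1.SF.HMain
import Pool.Agent.D0H1.SF.HRig

/-!
# Finiteness of the polarized systems with rigid Hodge numbers over fields without CM subfields

`F` is a number field, `n ≥ 1`, `w ≥ 0`, `h r` (`0 ≤ r ≤ w`) are natural numbers, `S` and `S'` are finite
sets of primes, `Λ` is a set of primes. The integral systems `(T_ℓ)_ℓ` of rank `n` over `F` of the theorem
have the properties in the problem of the realisations of a pure motive of weight `w` with a lattice:
Hodge numbers `h^{r,w-r} = h r`, pure good reduction outside `S`, semistable reduction in `S`. They are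
polarized (with a perfect form on `T_ℓ` for `ℓ` outside `S'`), and the representations may be reducible,
also modulo `ℓ`.

The Hodge numbers are *rigid* if there are no numbers `m r` with `m r + m (w - r) ≤ h r`, not all zero,
such that the mean of the weights `r` with the multiplicities `m r` is `w / 2`: they are at most `1`,
and the different subsets of the set of the numbers `2 r - w > 0` with `h r = 1` have different sums. This
is the case if they are at most `1` and the rank is at most `5`, or at most `7` for `w` odd, or (in all
ranks) if the numbers `2 r - w > 0` with `h r = 1` are superincreasing, as for instance `1, 3, 5, 11, 21, …`.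

Theorem: let the Hodge numbers be rigid, and suppose that each `ℓ` in `Λ` has a place of `F` above it
which induces on the largest totally real or CM subfield of `F` a place which is stable under complex
conjugation. Then there are only finitely many systems, up to isomorphism of the `T_ℓ` for all `ℓ` in `Λ`.
If `F` has no CM subfield, in particular if `F` has a real place, then the condition holds for all primes
`ℓ`: this is the finiteness in the problem, for the realisations. The earlier result (starting files,
`PolarizedRegularHodge`) needs `F = ℚ`, or one place above `ℓ`, or odd degree and rank at most `3`.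

The proof. Let `U` be a stable isotropic subspace of `V_ℓ` (or of `T_ℓ / ℓ` for large `ℓ`). Its
determinant has at the place `𝔩` above `ℓ` a weight `a 𝔩`, the sum of the weights `r` with multiplicities
`m 𝔩 r`. The unit relations of class field theory and Dirichlet's theorem show that the function
`a τ` of the embeddings `τ` of `F`, where `a τ` is the number `a 𝔩` at the place given by `τ`, is the
infinity type of an algebraic Hecke character: `a τ + a τ'` does not depend on `τ`, if `τ'` is the complex
conjugate of `τ` on the largest totally real or CM subfield, and purity gives `a τ + a τ' = w dim U`. A place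
`𝔩` which induces a self-conjugate place is given by two embeddings `τ` and `τ'` of this kind, so that
`2 a 𝔩 = w dim U`, and the rigidity gives `U = 0`. So there is no isotropic stable subspace `U ≠ 0`, and
`V_ℓ` and `T_ℓ / ℓ` are orthogonal sums of irreducible representations. The exceptional primes, for which
the relations between units in characteristic `ℓ` do not lift, depend only on `F`, `w` and `n` and on
finitely many Frobenius polynomials. So for systems with the same Frobenius polynomials the lattices `T_ℓ`
are isomorphic for all the other `ℓ`, and for the exceptional `ℓ` there are finitely many classes.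
-/

set_option autoImplicit false

namespace Pool.Agent.Results.MP_78e9a5_nt.FieldsWithoutCMSubfields

open Pool.Agent.R390.SF Pool.Agent.R390.SF.IntegralSystem Pool.Agent.D0H1.SF NumberField

theorem result :
    (∀ (F : SubFld ℚ) [FiniteDimensional ℚ F] (n : ℕ), 0 < n → ∀ (w : ℕ) (h : ℕ → ℕ)
      (S S' : Finset ℕ) (Λ : Set ℕ), Rigid w h →
      (∀ ℓ : ℕ, ℓ.Prime → ℓ ∈ Λ → HasSelfConjugatePlace F ℓ) →
      ∃ (m : ℕ) (T : Fin m → IntegralSystem F n), (∀ i, HodgeSystem S S' w h (T i)) ∧
        ∀ T' : IntegralSystem F n, HodgeSystem S S' w h T' → ∃ i, IsomorphicOn Λ (T i) T') ∧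
    (∀ (F : SubFld ℚ) [FiniteDimensional ℚ F] (ℓ : ℕ), ℓ.Prime →
      ((∀ M : IntermediateField ℚ F, ¬ IsCMField M) ∨ (∃ φ : F →+* ℂ, ∀ x, star (φ x) = φ x) ∨
        ∀ 𝔩 𝔩' : Idl F, Above ℓ 𝔩 → Above ℓ 𝔩' → 𝔩 = 𝔩') → HasSelfConjugatePlace F ℓ) ∧
    (∀ (w : ℕ) (h : ℕ → ℕ), (∀ r ≤ w, h r ≤ 1) →
      (∑ r ∈ Finset.range (w + 1), h r ≤ 5 ∨ (Odd w ∧ ∑ r ∈ Finset.range (w + 1), h r ≤ 7) ∨
        ∀ r ≤ w, w < 2 * r → h r = 1 →
          ∑ s ∈ Finset.range r, (2 * s - w) * h s < 2 * r - w) → Rigid w h) := by
  refine ⟨fun F _ n hn w h S S' Λ hr hΛ => hodge_finiteness hn w h S S' Λ hr hΛ, ?_, ?_⟩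
  · rintro F _ ℓ hℓ (h | h | h)
    · exact selfConj_of_noCM h hℓ
    · exact selfConj_of_real h hℓ
    · exact selfConj_of_unique hℓ h
  · rintro w h h1 (h2 | h2 | h2)
    · exact rigid_of_card h1 (Or.inl h2)
    · exact rigid_of_card h1 (Or.inr h2)
    · exact rigid_of_super h1 h2

end Pool.Agent.Results.MP_78e9a5_nt.FieldsWithoutCMSubfields
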