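import Pool.Agent.D0H1.SF.GCrit

/-!
# Finiteness of the polarized pure integral systems with generic Frobenius eigenvalues

`F` is a number field, `n ≥ 1`, `w ≥ 0`, `S` and `S'` are finite sets of primes, `Λ` is a set of primes.
There are only finitely many integral systems `(T_ℓ)_ℓ` of rank `n` over `F`, up to isomorphism of the
`T_ℓ` for all `ℓ` in `Λ`, which are polarized (with a perfect form on `T_ℓ` for the `ℓ` in `Λ` outside
`S'`), pure of weight `w`, with good reduction outside `S` and semistable reduction in `S`, and with
generic Frobenius eigenvalues: for every `ℓ` in `Λ` and every `d > 0` there is a prime `p ≠ ℓ` outside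
`S` which is not `Balanced` for `d`. There is no condition on the Hodge numbers or on the bad reduction,
and the representations `V_ℓ` and `T_ℓ / ℓ` may be reducible.

For `F = ℚ` the prime `p` is balanced for `d` if there are `d` roots of the Frobenius polynomial `P_p`
with product `p ^ (w d / 2)` such that these roots `z` and the numbers `p ^ w / z` together are among the
roots, with multiplicities. This does not happen, for any `d > 0`, if `P_p` has no multiple roots and
the rank is at most `5`, or at most `7` if `w` is odd. For all ranks and all number fields it does not
happen if `p` has maximal angle rank, that is, if all the multiplicative relations between `p` and the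
roots at the places above `p` follow from the relations `z * (q ^ w / z) = q ^ w` (and there are no
multiple roots). So the theorem is about all the systems with two primes of this kind.

The proof. Let `U ≠ 0` be an isotropic subspace of dimension `d`, stable under the Galois group. The
determinants of the Frobenius elements on `U` satisfy a product formula (transfer to `ℚ`, Minkowski's
theorem, and purity for the total weight), and the eigenvalues on `U` and on the quotient by its
orthogonal complement are together among the eigenvalues. So `p` is balanced for `d`; for the
representations `T_ℓ / ℓ` this needs a lift of the relations from characteristic `ℓ`, which exists for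
almost all `ℓ`, and the exceptional `ℓ` depend only on the Frobenius polynomials above finitely many
primes. So the polarization splits `V_ℓ` and `T_ℓ / ℓ` into orthogonal sums of irreducible
representations, and the self-dual lattices are unique up to isomorphism.
-/

set_option autoImplicit false

namespace Pool.Agent.Results.MP_78e9a5_nt.GenericFrobenius

open Pool.Agent.R390.SF Pool.Agent.R390.SF.IntegralSystem Pool.Agent.D0H1.SF NumberField Polynomial

theorem result (F : SubFld ℚ) [FiniteDimensional ℚ F] (n w : ℕ) (hn : 0 < n) (S S' : Finset ℕ)
    (Λ : Set ℕ) :
    (∃ (m : ℕ) (T : Fin m → IntegralSystem F n), (∀ i, GenericSystem S S' w Λ (T i)) ∧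
      ∀ T' : IntegralSystem F n, GenericSystem S S' w Λ T' → ∃ i, IsomorphicOn Λ (T i) T') ∧
    ∀ (T : IntegralSystem F n) (p : ℕ), p.Prime →
      ((MaximalAngleRank T w p ∨ SmallSquarefree T w p) → ∀ d : ℕ, 0 < d → ¬ Balanced T w p d) ∧
      (Module.finrank ℚ F = 1 → ∀ 𝔭 : Idl F, Above p 𝔭 → ∀ d : ℕ,
        Balanced T w p d ↔ IsotropicRelation (T.poly 𝔭) p w d) := by
  exact ⟨generic_finiteness hn w S S' Λ, fun T p hp => ⟨fun h d hd => not_balanced_crit hp h hd,
    fun h 𝔭 h𝔭 d => balanced_rat h hp h𝔭.1 h𝔭.2⟩⟩

end Pool.Agent.Results.MP_78e9a5_nt.GenericFrobenius
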