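import Pool.Agent.D0H1.SF.Main

/-!
# Finiteness of the polarized pure integral systems with multiplicity free monodromy

`F` is a number field, `n ≥ 1`, `w ≥ 0`, `S` and `S'` are finite sets of primes, `Λ` is a set of primes.
There are only finitely many integral systems `(T_ℓ)_ℓ` of rank `n` over `F`, up to isomorphism of the
`T_ℓ` for all `ℓ` in `Λ`, which are polarized (with a perfect form on `T_ℓ` for the `ℓ` in `Λ` outside
`S'`), pure of weight `w`, with good reduction outside `S` and semistable reduction in `S`, and for
which for every `ℓ` in `Λ` the Jordan blocks of the monodromy at all the places above a prime `p ≠ ℓ`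
in `S` have pairwise different sizes (`V_ℓ` for all and `T_ℓ / ℓ` for almost all `ℓ` in `Λ`). There is
no condition on the Hodge numbers, and the representations `V_ℓ` may be reducible. With one Jordan block
this is the case of maximal degeneration; for instance for the weight `3` the block sizes can be
`4`, `2` or `4, 2`.

The proof. Let `N` be the logarithm of the monodromy and `Φ` a Frobenius element. The eigenvalue of `Φ`
on the kernel of `N` in a block of size `b + 1` is determined up to the sign by the polarization. For a
subspace `U`, stable under `N` and `Φ`, this gives `det(Φ | U) ^ 2 q ^ t = q ^ (w dim U)` with a natural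
number `t`, which is positive if `U ≠ 0` is isotropic. For a subspace stable under the Galois group the
total weight of the determinant is `w dim U / 2` times the degree of `F`, so that there is no isotropic
stable subspace `U ≠ 0`; in particular `V_ℓ`, and `T_ℓ / ℓ` for almost all `ℓ`, is semisimple. It is also
multiplicity free, and this is used to show that the bound for `ℓ` is the same for all the systems with
the same Frobenius polynomials.
-/

set_option autoImplicit false

namespace Pool.Agent.Results.MP_78e9a5_nt.MultiplicityFreeMonodromy

open Pool.Agent.R390.SF Pool.Agent.R390.SF.IntegralSystem Pool.Agent.D0H1.SF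

theorem result (F : SubFld ℚ) [FiniteDimensional ℚ F] (n w : ℕ) (hn : 0 < n) (S S' : Finset ℕ)
    (Λ : Set ℕ) :
    ∃ (m : ℕ) (T : Fin m → IntegralSystem F n), (∀ i, DistinctSystem S S' w Λ (T i)) ∧
      ∀ T' : IntegralSystem F n, DistinctSystem S S' w Λ T' → ∃ i, IsomorphicOn Λ (T i) T' :=
  distinct_finiteness hn w S S' Λ

end Pool.Agent.Results.MP_78e9a5_nt.MultiplicityFreeMonodromy
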