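import Pool.Agent.D0H1.SF.RAll

/-!
# Finiteness of the systems of rank two over all number fields

`F` is a number field, `w` is a natural number, `h 0, …, h w` are natural numbers with the sum `2`, `S` is a
finite set of primes, `Λ` is a set of primes. The integral systems `(T_ℓ)_ℓ` of rank `2` over `F` of the
theorem have the properties in the problem of the realisations of a pure motive of weight `w` with a
lattice: Hodge numbers `h^{r,w-r} = h r`, pure good reduction outside `S`, semistable reduction in `S`. They
are not polarized, and `F` is any number field, also a CM field.

One more property of the realisations is used, the reciprocity law of class field theory for the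
characters which are given by the determinants of the stable subspaces of `V_ℓ` (and of `T_ℓ / ℓ` for large
`ℓ`): if such a character is at the places `𝔩` above `ℓ` equal to `χ ^ (-a 𝔩)` on the inertia groups (`χ`
the cyclotomic character), then its value at the power `𝔭 ^ m = (x)` of a place is
`± ∏ τ, τ x ^ a τ`, where `a τ` is the number `a 𝔩` at the place above `ℓ` given by the embedding `τ` of `F`.

Theorem: there are only finitely many such systems with semisimple `V_ℓ`, up to isomorphism of the `T_ℓ`
for all `ℓ` in `Λ`. This is the finiteness in the problem in rank two, for all Hodge numbers, for the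
realisations. It is enough that `V_ℓ` is semisimple for those `ℓ` in `Λ` for which the system is of CM
type (with an infinity type from `ℓ`; this includes the twists of finite characters if
`h^{w/2,w/2} = 2`). If the two weights are different and some place of `F` above `ℓ` induces on the largest
totally real or CM subfield of `F` a place which is stable under complex conjugation, no system is of CM
type for `ℓ`. The earlier result (starting files) is for different weights and fields `F` of odd degree, or
`ℓ` with one place of `F` above it.

The proof. By reciprocity and purity for the determinant the two weights are `r` and `w - r`. A stable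
line in `V_ℓ` has at the places above `ℓ` the weights `a 𝔩` in `{r, w - r}`, and Frobenius eigenvalues `z`
with `z ^ (2 m) = (∏ τ, τ x ^ a τ) ^ 2`, if `𝔭 ^ m = (x)`. The same holds for the stable lines in `T_ℓ / ℓ` for
large `ℓ`: there are only finitely many functions `a`, and for a function for which the equation fails at
some place it fails modulo `ℓ` for large `ℓ`. So, if the system is not of CM type for `ℓ`, then `V_ℓ` and
`T_ℓ / ℓ` (for large `ℓ`) are irreducible.

Let the system be of CM type for `ℓ`, and `r ≠ w - r`. At the places `𝔭` of degree one (and unramified over
`ℚ`) the quotient of the two Frobenius eigenvalues is not a root of unity: otherwise the powers of `𝔭` in a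
power of `∏ τ, τ x ^ a τ` and in the power `w / 2` of the norm would be the same. And the product
`∏ τ, τ x ^ a τ` lies in `ℚ_ℓ`, since `a` is invariant under the decomposition group. So the eigenvalues lie
in `ℤ_ℓ`, the discriminant of the Frobenius polynomial is a square in `ℤ_ℓ`, and by the density theorem the
discriminants of all elements of the image are squares. If `V_ℓ` is reducible and semisimple, the
image is commutative, and for large `ℓ` some Frobenius element has different eigenvalues modulo `ℓ`, and
the stable lattice is unique. If `V_ℓ` is irreducible, `T_ℓ / ℓ` is irreducible for large `ℓ`: in a basis of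
eigenvectors of this Frobenius element `s` let `B g`, `C g` be the entries of `g` outside the diagonal,
with `B g * C g ≠ 0` divisible by `ℓ`; the discriminants of `g⁻¹ s ^ m g s ^ n` are squares, and in the
limit for `m, n → 0` in the group `lim ℤ / (ℓ - 1) ℓ ^ N` the form `D ^ 2 (a + b) ^ 2 + 4 D B C a b`, with
`D = det g`, has only squares as values. It follows that `- B C D` and all sums of two squares of
elements of `ℤ_ℓ` are squares, which is impossible modulo `ℓ`.

If `r = w - r`, the eigenvalues of the elements of the image of `V_ℓ (r)` are roots of unity of bounded
order. If `T_ℓ / ℓ` is reducible and `ℓ` is large, the normal subgroup which acts unipotently on `T_ℓ / ℓ`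
consists of unipotent elements, has a fixed vector in `V_ℓ`, and acts trivially if `V_ℓ` is irreducible; so
the image is commutative of exponent `ℓ - 1`, and `V_ℓ` has a stable line. If `V_ℓ` is reducible and
semisimple, the image is commutative, and it is scalar if all Frobenius elements have double eigenvalues.

So in all cases the lattice `T_ℓ` is determined by the Frobenius polynomials for large `ℓ`, and for the
other `ℓ` there are finitely many classes.
-/

set_option autoImplicit false

namespace Pool.Agent.Results.MP_78e9a5_nt.RankTwo

open Pool.Agent.R390.SF Pool.Agent.R390.SF.IntegralSystem Pool.Agent.D0H1.SF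

theorem result :
    (∀ (F : SubFld ℚ) [FiniteDimensional ℚ F] (w : ℕ) (h : ℕ → ℕ), (∀ i, w < i → h i = 0) →
      ∑ i ∈ Finset.range (w + 1), h i = 2 → ∀ (S : Finset ℕ) (Λ : Set ℕ),
        ∃ (m : ℕ) (T : Fin m → IntegralSystem F 2), (∀ i, SystemOfRankTwo S w h Λ (T i)) ∧
          ∀ T' : IntegralSystem F 2, SystemOfRankTwo S w h Λ T' → ∃ i, IsomorphicOn Λ (T i) T') ∧
    (∀ (F : SubFld ℚ) [FiniteDimensional ℚ F] (ℓ : ℕ), ℓ.Prime → HasSelfConjugatePlace F ℓ →
      ∀ (S : Finset ℕ) (w : ℕ) (h : ℕ → ℕ), (∀ i, h i ≠ 0 → 2 * i ≠ w) →
        ∀ T : IntegralSystem F 2, T.GoodSystem S w → ¬ IsCM S h ℓ T) := by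
  refine ⟨?_, ?_⟩
  · intro F _ w h h0 hh S Λ
    exact all_finiteness h0 hh S Λ
  · intro F _ ℓ hℓ hFℓ S w h hw T hT
    exact all_selfConj hℓ hFℓ hw hT

end Pool.Agent.Results.MP_78e9a5_nt.RankTwo
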